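import Pool.Agent.TH293.AP.Core
import Pool.Agent.W254.PA.LeoBase
import Pool.Agent.W245.PB.BakerThmP

set_option autoImplicit false

/-!
# Additive pairs and the `p`-adic strong four exponentials conjecture
-/

namespace Pool.Agent.TH293.APP

open Module Finset NormedSpace Pool.Agent.TH293.AP Pool.Agent.W254.PA
open Pool.Agent.W245.PB (IsIwasawaLog brumer)

variable {p : ℕ} [hp : Fact p.Prime] {L : PadicAlgCl p → PadicAlgCl p} (hL : IsIwasawaLog p L)

/-- a rational number which is a `p`-adic unit -/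
def U (p : ℕ) (x : ℚ) : Prop := padicValRat p x = 0

/-- norm of a rational `p`-adic unit -/
lemma norm_unit {x : ℚ} (hx : x ≠ 0) (h : U p x) : ‖((x : ℚ) : PadicAlgCl p)‖ = 1 := by
  have h1 : ((x : ℚ) : PadicAlgCl p) = (((x : ℚ) : ℚ_[p]) : PadicAlgCl p) := by
    rw [map_ratCast]
  rw [h1, PadicAlgCl.norm_extends, Padic.eq_padicNorm, padicNorm.eq_zpow_of_nonzero hx]
  unfold U at h
  rw [h]
  simp

include hL in
/-- kernel of the logarithm -/
theorem exists_pow_eq_one {u : PadicAlgCl p} (hu : ‖u‖ = 1) (h0 : L u = 0) :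
    ∃ M : ℕ, 1 ≤ M ∧ u ^ M = 1 := by
  have hu0 : u ≠ 0 := by
    rintro rfl
    rw [norm_zero] at hu
    exact zero_ne_one hu
  obtain ⟨δ, hδ, h⟩ := exp_log_near p (ic p) norm_ic L hL.mul 2 (1 / 2) (by norm_num) (by
    intro z hz
    exact log_series_le p hz.le (hL.ser z (by linarith)))
  obtain ⟨M, hM, hM2⟩ := exists_pow_near p u hu δ hδ
  refine ⟨M, hM, ?_⟩
  obtain ⟨-, h2⟩ := h (u ^ M - 1) hM2
  have h3 : 1 + (u ^ M - 1) = u ^ M := by ring
  rw [h3, hL.pow hu0, h0, mul_zero, map_zero, exp_zero] at h2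
  have h4 : ic p (u ^ M - 1) = 0 := left_eq_add.mp h2
  have h5 := (map_eq_zero (ic p)).mp h4
  exact sub_eq_zero.mp h5

include hL in
lemma lp_eq_zero {x : ℚ} (hx : 0 < x) (h : U p x) (h0 : L (x : PadicAlgCl p) = 0) : x = 1 := by
  obtain ⟨M, hM, h1⟩ := exists_pow_eq_one hL (norm_unit hx.ne' h) h0
  have h2 : x ^ M = 1 := by exact_mod_cast h1
  exact (pow_eq_one_iff_of_nonneg hx.le (by omega)).1 h2

include hL in
lemma lp_mul {x y : ℚ} (hx : x ≠ 0) (hy : y ≠ 0) :
    L ((x * y : ℚ) : PadicAlgCl p) = L (x : PadicAlgCl p) + L (y : PadicAlgCl p) := by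
  rw [Rat.cast_mul, hL.mul _ _ (by exact_mod_cast hx) (by exact_mod_cast hy)]

include hL in
lemma lp_zpow {x : ℚ} (hx : x ≠ 0) (k : ℤ) :
    L ((x ^ k : ℚ) : PadicAlgCl p) = k * L (x : PadicAlgCl p) := by
  rw [Rat.cast_zpow, hL.zpow (by exact_mod_cast hx)]

lemma U.mul {x y : ℚ} (hx0 : x ≠ 0) (hy0 : y ≠ 0) (hx : U p x) (hy : U p y) : U p (x * y) := by
  unfold U at *
  rw [padicValRat.mul hx0 hy0, hx, hy, add_zero]

lemma U.zpow {x : ℚ} (hx0 : x ≠ 0) (hx : U p x) (k : ℤ) : U p (x ^ k) := by
  unfold U at *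
  rw [padicValRat.zpow, hx, mul_zero]

include hL in
/-- three units which are not multiplicatively dependent have independent logarithms -/
lemma indep_lp {x y z : ℚ} (hx : 0 < x) (hy : 0 < y) (hz : 0 < z) (ux : U p x) (uy : U p y)
    (uz : U p z) (h : ¬ Dep x y z) :
    LinearIndependent ℚ fun i => L ((![(x : PadicAlgCl p), y, z] : Fin 3 → PadicAlgCl p) i) := by
  rw [← LinearIndependent.iff_fractionRing ℤ ℚ, Fintype.linearIndependent_iff]
  intro g hg
  rw [Fin.sum_univ_three] at hg
  simp only [Matrix.cons_val_zero, Matrix.cons_val_one, Matrix.cons_val_two, Matrix.tail_cons,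
    Matrix.head_cons, zsmul_eq_mul] at hg
  have hx' := hx.ne'
  have hy' := hy.ne'
  have hz' := hz.ne'
  have h1 : L ((x ^ g 0 * y ^ g 1 * z ^ g 2 : ℚ) : PadicAlgCl p) = 0 := by
    rw [lp_mul hL (by positivity) (by positivity), lp_mul hL (by positivity) (by positivity),
      lp_zpow hL hx', lp_zpow hL hy', lp_zpow hL hz']
    exact hg
  have h2 : x ^ g 0 * y ^ g 1 * z ^ g 2 = 1 :=
    lp_eq_zero hL (by positivity) (((ux.zpow hx' _).mul (by positivity) (by positivity)
      (uy.zpow hy' _)).mul (by positivity) (by positivity) (uz.zpow hz' _)) h1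
  by_contra hne
  push Not at hne
  obtain ⟨i, hi⟩ := hne
  apply h
  refine ⟨g 0, g 1, g 2, ?_, h2⟩
  fin_cases i
  · exact Or.inl hi
  · exact Or.inr (Or.inl hi)
  · exact Or.inr (Or.inr hi)

include hL in
/-- the `p`-adic strong six exponentials theorem for rational numbers -/
lemma dep_of {t : PadicAlgCl p} (ht : Transcendental ℚ t) {x y z : ℚ} (hx : 0 < x) (hy : 0 < y)
    (hz : 0 < z) (ux : U p x) (uy : U p y) (uz : U p z)
    (h1 : t * L x ∈ LtE (logs L)) (h2 : t * L y ∈ LtE (logs L)) (h3 : t * L z ∈ LtE (logs L)) :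
    Dep x y z := by
  by_contra hcon
  have hli := indep_lp hL hx hy hz ux uy uz hcon
  have hx' := hx.ne'
  have hy' := hy.ne'
  have hz' := hz.ne'
  have hlog : ∀ w : ℚ, w ≠ 0 → L (w : PadicAlgCl p) ∈ LtE (logs L) := fun w hw =>
    Submodule.subset_span (Or.inr ⟨w, by exact_mod_cast hw, isAlgebraic_algebraMap w, rfl⟩)
  have key := hyp_padic hL 2 3 ![t, -1] ![fun j => L ((![(x : PadicAlgCl p), y, z] : Fin 3 → _) j),
    fun j => t * L ((![(x : PadicAlgCl p), y, z] : Fin 3 → _) j)] ?_ ?_ ?_ ?_
  · norm_num at key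
  · rw [LinearIndependent.pair_iff]
    intro s u hsu
    rw [Algebra.smul_def, Algebra.smul_def] at hsu
    have hs : IsAlgebraic ℚ (algebraMap (algebraicClosure ℚ (PadicAlgCl p)) (PadicAlgCl p) s) := mem_algebraicClosure_iff.1 s.2
    have hu : IsAlgebraic ℚ (algebraMap (algebraicClosure ℚ (PadicAlgCl p)) (PadicAlgCl p) u) := mem_algebraicClosure_iff.1 u.2
    by_cases hs0 : s = 0
    · subst hs0
      rw [map_zero, zero_mul, zero_add, mul_neg, mul_one, neg_eq_zero] at hsu
      exact ⟨rfl, (map_eq_zero _).1 hsu⟩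
    · exfalso
      apply ht
      have hs' : algebraMap (algebraicClosure ℚ (PadicAlgCl p)) (PadicAlgCl p) s ≠ 0 :=
        (map_ne_zero _).2 hs0
      have e : t = algebraMap (algebraicClosure ℚ (PadicAlgCl p)) (PadicAlgCl p) u *
          (algebraMap (algebraicClosure ℚ (PadicAlgCl p)) (PadicAlgCl p) s)⁻¹ := by
        field_simp
        linear_combination hsu
      rw [e]
      exact hu.mul hs.inv
  · intro i j
    fin_cases i <;> fin_cases j
    · exact hlog x hx'
    · exact hlog y hy'
    · exact hlog z hz'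
    · exact h1
    · exact h2
    · exact h3
  · intro j
    rw [Fin.sum_univ_two]
    simp only [Matrix.cons_val_zero, Matrix.cons_val_one]
    ring
  · rw [Fintype.linearIndependent_iff]
    intro g hg
    have h0 := congrFun hg 0
    rw [Finset.sum_apply] at h0
    simp only [Pi.smul_apply, Matrix.cons_val_zero, Algebra.smul_def, Pi.zero_apply] at h0
    have hb := (brumer hL (![(x : PadicAlgCl p), y, z] : Fin 3 → PadicAlgCl p) (by
      intro i
      fin_cases i
      · simpa using hx'
      · simpa using hy'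
      · simpa using hz') (by
      intro i
      fin_cases i
      · exact isAlgebraic_algebraMap x
      · exact isAlgebraic_algebraMap y
      · exact isAlgebraic_algebraMap z) hli 0 isAlgebraic_zero
      (fun i => algebraMap (algebraicClosure ℚ (PadicAlgCl p)) (PadicAlgCl p) (g i))
      (fun i => mem_algebraicClosure_iff.1 (g i).2) (by rw [zero_add]; exact h0)).2
    intro i
    exact (map_eq_zero _).1 (hb i)

/-- the additive pairs -/
def SP (L : PadicAlgCl p → PadicAlgCl p) (V : Set (PadicAlgCl p)) (t : PadicAlgCl p) : Set ℚ :=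
  {x : ℚ | 0 < x ∧ x < 1 / 2 ∧ padicValRat p x = 0 ∧ padicValRat p (1 - x) = 0 ∧
    t * L (x : PadicAlgCl p) ∈ V ∧ t * L ((1 - x : ℚ) : PadicAlgCl p) ∈ V}

lemma U_div {a b : ℚ} (ha : a ≠ 0) (hb : b ≠ 0) (h1 : U p a) (h2 : U p b) : U p (a / b) := by
  unfold U at *
  rw [padicValRat.div ha hb, h1, h2, sub_zero]

include hL in
theorem dichotomy {t : PadicAlgCl p} (ht : Transcendental ℚ t) (V : Submodule ℚ (PadicAlgCl p))
    (hV : ∀ z ∈ V, z ∈ LtE (logs L)) :
    (SP L V t).Subsingleton ∨ SP L V t = {1 / 3, 1 / 4, 1 / 9} := by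
  have hcore : ∀ x ∈ SP L V t, ∀ x' ∈ SP L V t, x' = x ∨ ((x = 1 / 3 ∨ x = 1 / 4 ∨ x = 1 / 9) ∧
      (x' = 1 / 3 ∨ x' = 1 / 4 ∨ x' = 1 / 9)) := by
    rintro x ⟨h0, h1, u, v, h2, h3⟩ x' ⟨h0', h1', u', v', h2', h3'⟩
    have hy : 0 < 1 - x := by linarith
    have hy' : 0 < 1 - x' := by linarith
    exact core h0 h1 h0' h1'
      (dep_of hL ht h0 hy h0' u v u' (hV _ h2) (hV _ h3) (hV _ h2'))
      (dep_of hL ht h0 hy hy' u v v' (hV _ h2) (hV _ h3) (hV _ h3'))
      (dep_of hL ht h0' hy' h0 u' v' u (hV _ h2') (hV _ h3') (hV _ h2))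
      (dep_of hL ht h0' hy' hy u' v' v (hV _ h2') (hV _ h3') (hV _ h3))
  set lg : ℚ → PadicAlgCl p := fun x => L (x : PadicAlgCl p) with hlg
  have lgz : ∀ (x : ℚ) (k : ℤ), x ≠ 0 → lg (x ^ k) = k * lg x := fun x k hx => lp_zpow hL hx k
  have e4 : lg 4 = 2 * lg 2 := by
    have := lgz 2 2 (by norm_num)
    norm_num at this
    exact this
  have e9 : lg 9 = 2 * lg 3 := by
    have := lgz 3 2 (by norm_num)
    norm_num at this
    exact this
  have e8 : lg 8 = 3 * lg 2 := by
    have := lgz 2 3 (by norm_num)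
    norm_num at this
    exact this
  have ediv : ∀ a b : ℚ, a ≠ 0 → b ≠ 0 → lg (a / b) = lg a - lg b := by
    intro a b ha hb
    have : lg (a / b * b) = lg (a / b) + lg b := lp_mul hL (div_ne_zero ha hb) hb
    rw [div_mul_cancel₀ _ hb] at this
    rw [this]
    ring
  have e1 : lg 1 = 0 := by
    rw [hlg]
    simp [hL.one]
  have hA : ∀ z : PadicAlgCl p, ∀ q : ℚ, z ∈ V → (q : PadicAlgCl p) * z ∈ V := by
    intro z q hz
    have := V.smul_mem q hz
    rwa [Rat.smul_def] at this
  have hvdiv : ∀ a b : ℚ, a ≠ 0 → b ≠ 0 → padicValRat p a = 0 → padicValRat p b = 0 →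
      padicValRat p (a / b) = 0 := fun a b ha hb h1 h2 => U_div ha hb h1 h2
  have hvpow : ∀ (a : ℚ) (k : ℤ), a ≠ 0 → padicValRat p a = 0 → padicValRat p (a ^ k) = 0 :=
    fun a k ha h => U.zpow ha h k
  -- membership of the three special points
  have hall : t * lg 2 ∈ V → t * lg 3 ∈ V → padicValRat p 2 = 0 → padicValRat p 3 = 0 →
      ({1 / 3, 1 / 4, 1 / 9} : Set ℚ) ⊆ SP L V t := by
    intro h2 h3 v2 v3
    have v4 : padicValRat p 4 = 0 := by
      have := hvpow 2 2 (by norm_num) v2
      norm_num at this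
      exact this
    have v8 : padicValRat p 8 = 0 := by
      have := hvpow 2 3 (by norm_num) v2
      norm_num at this
      exact this
    have v9 : padicValRat p 9 = 0 := by
      have := hvpow 3 2 (by norm_num) v3
      norm_num at this
      exact this
    have v1 : padicValRat p 1 = 0 := padicValRat.one
    have hm : ∀ a b : ℚ, (a : PadicAlgCl p) * (t * lg 2) + (b : PadicAlgCl p) * (t * lg 3) ∈ V :=
      fun a b => V.add_mem (hA _ a h2) (hA _ b h3)
    rintro x (rfl | rfl | rfl)
    · refine ⟨by norm_num, by norm_num, hvdiv _ _ (by norm_num) (by norm_num) v1 v3, ?_, ?_, ?_⟩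
      · have e : (1 : ℚ) - 1 / 3 = 2 / 3 := by norm_num
        rw [e]
        exact hvdiv _ _ (by norm_num) (by norm_num) v2 v3
      · have := hm 0 (-1)
        change t * lg (1 / 3) ∈ V
        rw [ediv 1 3 (by norm_num) (by norm_num), e1]
        convert this using 1
        push_cast
        ring
      · have := hm 1 (-1)
        have e : (1 : ℚ) - 1 / 3 = 2 / 3 := by norm_num
        change t * lg (1 - 1 / 3) ∈ V
        rw [e, ediv 2 3 (by norm_num) (by norm_num)]
        convert this using 1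
        push_cast
        ring
    · refine ⟨by norm_num, by norm_num, hvdiv _ _ (by norm_num) (by norm_num) v1 v4, ?_, ?_, ?_⟩
      · have e : (1 : ℚ) - 1 / 4 = 3 / 4 := by norm_num
        rw [e]
        exact hvdiv _ _ (by norm_num) (by norm_num) v3 v4
      · have := hm (-2) 0
        change t * lg (1 / 4) ∈ V
        rw [ediv 1 4 (by norm_num) (by norm_num), e1, e4]
        convert this using 1
        push_cast
        ring
      · have := hm (-2) 1
        have e : (1 : ℚ) - 1 / 4 = 3 / 4 := by norm_num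
        change t * lg (1 - 1 / 4) ∈ V
        rw [e, ediv 3 4 (by norm_num) (by norm_num), e4]
        convert this using 1
        push_cast
        ring
    · refine ⟨by norm_num, by norm_num, hvdiv _ _ (by norm_num) (by norm_num) v1 v9, ?_, ?_, ?_⟩
      · have e : (1 : ℚ) - 1 / 9 = 8 / 9 := by norm_num
        rw [e]
        exact hvdiv _ _ (by norm_num) (by norm_num) v8 v9
      · have := hm 0 (-2)
        change t * lg (1 / 9) ∈ V
        rw [ediv 1 9 (by norm_num) (by norm_num), e1, e9]
        convert this using 1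
        push_cast
        ring
      · have := hm 3 (-2)
        have e : (1 : ℚ) - 1 / 9 = 8 / 9 := by norm_num
        change t * lg (1 - 1 / 9) ∈ V
        rw [e, ediv 8 9 (by norm_num) (by norm_num), e9, e8]
        convert this using 1
        push_cast
        ring
  have hnn : ∀ n : ℕ, 0 ≤ padicValRat p (n : ℚ) := by
    intro n
    rw [padicValRat.of_nat]
    positivity
  have hspec : ∀ x ∈ SP L V t, (x = 1 / 3 ∨ x = 1 / 4 ∨ x = 1 / 9) →
      t * lg 2 ∈ V ∧ t * lg 3 ∈ V ∧ padicValRat p 2 = 0 ∧ padicValRat p 3 = 0 := by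
    rintro x ⟨-, -, u, v, h2, h3⟩ hx
    rcases hx with rfl | rfl | rfl
    · change t * lg (1 / 3) ∈ V at h2
      change t * lg (1 - 1 / 3) ∈ V at h3
      have e : (1 : ℚ) - 1 / 3 = 2 / 3 := by norm_num
      rw [ediv 1 3 (by norm_num) (by norm_num), e1] at h2
      rw [e, ediv 2 3 (by norm_num) (by norm_num)] at h3
      rw [padicValRat.div (by norm_num) (by norm_num), padicValRat.one] at u
      rw [e, padicValRat.div (by norm_num) (by norm_num)] at v
      refine ⟨?_, ?_, by linarith, by linarith⟩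
      · have := V.sub_mem h3 h2
        convert this using 1
        ring
      · have := V.neg_mem h2
        convert this using 1
        ring
    · change t * lg (1 / 4) ∈ V at h2
      change t * lg (1 - 1 / 4) ∈ V at h3
      have e : (1 : ℚ) - 1 / 4 = 3 / 4 := by norm_num
      rw [ediv 1 4 (by norm_num) (by norm_num), e1, e4] at h2
      rw [e, ediv 3 4 (by norm_num) (by norm_num), e4] at h3
      rw [padicValRat.div (by norm_num) (by norm_num), padicValRat.one] at u
      rw [e, padicValRat.div (by norm_num) (by norm_num)] at v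
      have v4 : padicValRat p 4 = 2 * padicValRat p 2 := by
        have := padicValRat.zpow (p := p) (2 : ℚ) (k := 2)
        norm_num at this
        exact this
      refine ⟨?_, ?_, by linarith, by linarith⟩
      · have := hA _ (-1 / 2) h2
        convert this using 1
        push_cast
        ring
      · have := V.sub_mem h3 h2
        convert this using 1
        ring
    · change t * lg (1 / 9) ∈ V at h2
      change t * lg (1 - 1 / 9) ∈ V at h3
      have e : (1 : ℚ) - 1 / 9 = 8 / 9 := by norm_num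
      rw [ediv 1 9 (by norm_num) (by norm_num), e1, e9] at h2
      rw [e, ediv 8 9 (by norm_num) (by norm_num), e9, e8] at h3
      rw [padicValRat.div (by norm_num) (by norm_num), padicValRat.one] at u
      rw [e, padicValRat.div (by norm_num) (by norm_num)] at v
      have v9 : padicValRat p 9 = 2 * padicValRat p 3 := by
        have := padicValRat.zpow (p := p) (3 : ℚ) (k := 2)
        norm_num at this
        exact this
      have v8 : padicValRat p 8 = 3 * padicValRat p 2 := by
        have := padicValRat.zpow (p := p) (2 : ℚ) (k := 3)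
        norm_num at this
        exact this
      refine ⟨?_, ?_, by linarith, by linarith⟩
      · have := hA _ (1 / 3) (V.sub_mem h3 h2)
        convert this using 1
        push_cast
        ring
      · have := hA _ (-1 / 2) h2
        convert this using 1
        push_cast
        ring
  by_cases hex : ∃ x ∈ SP L V t, x = 1 / 3 ∨ x = 1 / 4 ∨ x = 1 / 9
  · right
    obtain ⟨x, hx, hx'⟩ := hex
    obtain ⟨h2, h3, h4, h5⟩ := hspec x hx hx'
    refine Set.Subset.antisymm (fun s hs => ?_) (hall h2 h3 h4 h5)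
    rcases hcore x hx s hs with h | ⟨-, h⟩
    · rw [h]
      exact hx'
    · exact h
  · left
    intro x hx x' hx'
    rcases hcore x hx x' hx' with h | ⟨h, -⟩
    · exact h.symm
    · exact absurd ⟨x, hx, h⟩ hex

end Pool.Agent.TH293.APP
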